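import Pool.Agent.H27.AP.Targets

/-!
# Board apr (MP_98b15b_nt), row FSQ: mean square of the exponential sums over an interval
-/

set_option autoImplicit false

open Finset Real

namespace Pool.Agent.H52.APR

open Pool.Agent.H27.AP

/-- orthogonality -/
theorem orth (q i j : ℕ) (hq : 0 < q) :
    ∑ r ∈ range q, ee r q i * (starRingEnd ℂ) (ee r q j) = if i ≡ j [MOD q] then (q : ℂ) else 0 := by
  have hprim := Complex.isPrimitiveRoot_exp q hq.ne'
  set ω : ℂ := Complex.exp (2 * π * Complex.I / q) with hω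
  have hω0 : ω ≠ 0 := Complex.exp_ne_zero _
  have hnorm : ‖ω‖ = 1 := hprim.norm'_eq_one hq.ne'
  have hee : ∀ r n : ℕ, ee r q n = (ω ^ n) ^ r := by
    intro r n
    unfold ee
    rw [hω, ← Complex.exp_nat_mul, ← Complex.exp_nat_mul]
    congr 1
    ring
  have hconj : ∀ r n : ℕ, (starRingEnd ℂ) (ee r q n) = ((ω ^ n)⁻¹) ^ r := by
    intro r n
    rw [hee, map_pow, map_pow, ← Complex.inv_eq_conj hnorm, inv_pow]
  have hterm : ∀ r ∈ range q, ee r q i * (starRingEnd ℂ) (ee r q j) =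
      (ω ^ i * (ω ^ j)⁻¹) ^ r := by
    intro r _
    rw [hee, hconj, mul_pow]
  rw [Finset.sum_congr rfl hterm]
  set η : ℂ := ω ^ i * (ω ^ j)⁻¹ with hη
  have hone : η = 1 ↔ i ≡ j [MOD q] := by
    rw [hη, mul_inv_eq_one₀ (pow_ne_zero j hω0)]
    have hmod : ∀ k : ℕ, ω ^ k = ω ^ (k % q) := by
      intro k
      conv_lhs => rw [← Nat.div_add_mod k q, pow_add, pow_mul, hprim.pow_eq_one, one_pow, one_mul]
    constructor
    · intro h
      rw [hmod i, hmod j] at h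
      exact hprim.pow_inj (Nat.mod_lt _ hq) (Nat.mod_lt _ hq) h
    · intro h
      have h' : i % q = j % q := h
      rw [hmod i, hmod j, h']
  by_cases h : i ≡ j [MOD q]
  · rw [if_pos h, hone.2 h]
    simp
  · rw [if_neg h]
    have h1 : η ≠ 1 := fun h2 => h (hone.1 h2)
    have h2 : η ^ q = 1 := by
      rw [hη, mul_pow, inv_pow, ← pow_mul, ← pow_mul, mul_comm i q, mul_comm j q, pow_mul,
        pow_mul, hprim.pow_eq_one, one_pow, one_pow, inv_one, mul_one]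
    rw [geom_sum_eq h1, h2, sub_self, zero_div]

/-- Parseval -/
theorem full_sq (q h : ℕ) (hq : 0 < q) :
    ∑ r ∈ range q, ‖∑ i ∈ Icc 1 h, ee r q i‖ ^ 2 =
      (q : ℝ) * ∑ i ∈ Icc 1 h, (((Icc 1 h).filter fun j => j ≡ i [MOD q]).card : ℝ) := by
  have h1 : ((∑ r ∈ range q, ‖∑ i ∈ Icc 1 h, ee r q i‖ ^ 2 : ℝ) : ℂ) =
      ((q : ℝ) * ∑ i ∈ Icc 1 h, (((Icc 1 h).filter fun j => j ≡ i [MOD q]).card : ℝ) : ℝ) := by
    push_cast
    have h2 : ∀ r ∈ range q, ((‖∑ i ∈ Icc 1 h, ee r q i‖ : ℝ) : ℂ) ^ 2 =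
        ∑ j ∈ Icc 1 h, ∑ i ∈ Icc 1 h, ee r q j * (starRingEnd ℂ) (ee r q i) := by
      intro r _
      rw [← Complex.mul_conj', map_sum, Finset.sum_mul_sum]
    rw [Finset.sum_congr rfl h2]
    calc ∑ r ∈ range q, ∑ j ∈ Icc 1 h, ∑ i ∈ Icc 1 h, ee r q j * (starRingEnd ℂ) (ee r q i)
        = ∑ j ∈ Icc 1 h, ∑ i ∈ Icc 1 h, ∑ r ∈ range q,
            ee r q j * (starRingEnd ℂ) (ee r q i) := by
          rw [Finset.sum_comm]
          exact Finset.sum_congr rfl fun j _ => Finset.sum_comm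
      _ = ∑ j ∈ Icc 1 h, ∑ i ∈ Icc 1 h, (if j ≡ i [MOD q] then (q : ℂ) else 0) :=
          Finset.sum_congr rfl fun j _ => Finset.sum_congr rfl fun i _ => orth q j i hq
      _ = ∑ i ∈ Icc 1 h, ∑ j ∈ Icc 1 h, (if j ≡ i [MOD q] then (q : ℂ) else 0) :=
          Finset.sum_comm
      _ = _ := by
          rw [Finset.mul_sum]
          refine Finset.sum_congr rfl fun i _ => ?_
          rw [← Finset.sum_filter, Finset.sum_const, nsmul_eq_mul, mul_comm]
  exact_mod_cast h1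

theorem class_card (q h i : ℕ) (hq : 0 < q) :
    (((Icc 1 h).filter fun j => j ≡ i [MOD q]).card : ℝ) ≤ (h : ℝ) / q + 1 := by
  have hI : Icc 1 h = Ioc 0 h := by
    ext x
    simp only [Finset.mem_Icc, Finset.mem_Ioc]
    omega
  have h1 := Nat.Ioc_filter_modEq_card 0 h hq i
  rw [hI]
  have hqq : (0 : ℚ) < q := by exact_mod_cast hq
  have h2 : ((((Ioc 0 h).filter fun j => j ≡ i [MOD q]).card : ℤ) : ℚ) ≤ (h : ℚ) / q + 1 := by
    rw [h1]
    push_cast
    refine max_le ?_ (by positivity)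
    have a1 := Int.floor_le (((h : ℚ) - i) / q)
    have a2 := Int.lt_floor_add_one (((0 : ℚ) - i) / q)
    have a3 : ((h : ℚ) - i) / q - ((0 : ℚ) - i) / q = (h : ℚ) / q := by
      field_simp
      ring
    push_cast at a1 a2 ⊢
    linarith
  have h3 : (((((Ioc 0 h).filter fun j => j ≡ i [MOD q]).card : ℤ) : ℚ) : ℝ) ≤
      (((h : ℚ) / q + 1 : ℚ) : ℝ) := by exact_mod_cast h2
  push_cast at h3
  exact h3

theorem pf_FSQ : T_FSQ := by
  intro q h hq
  have hq0 : 0 < q := by omega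
  have hqr : (0 : ℝ) < q := by exact_mod_cast hq0
  have h0 : (0 : ℕ) ∉ Rd q := by
    unfold Rd
    rw [Finset.mem_filter]
    rintro ⟨_, h1⟩
    rw [Nat.coprime_zero_left] at h1
    omega
  have h0' : (0 : ℕ) ∈ range q := Finset.mem_range.2 hq0
  have hsub : insert 0 (Rd q) ⊆ range q := by
    intro x hx
    rcases Finset.mem_insert.1 hx with h1 | h1
    · rw [h1]; exact h0'
    · exact (Finset.mem_filter.1 h1).1
  have h1 : ∑ r ∈ insert 0 (Rd q), ‖∑ i ∈ Icc 1 h, ee r q i‖ ^ 2 ≤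
      ∑ r ∈ range q, ‖∑ i ∈ Icc 1 h, ee r q i‖ ^ 2 :=
    Finset.sum_le_sum_of_subset_of_nonneg hsub fun _ _ _ => sq_nonneg _
  rw [Finset.sum_insert h0, full_sq q h hq0] at h1
  have h2 : ‖∑ i ∈ Icc 1 h, ee 0 q i‖ ^ 2 = (h : ℝ) ^ 2 := by
    have h3 : ∀ i ∈ Icc 1 h, ee 0 q i = 1 := by
      intro i _
      unfold ee
      simp
    rw [Finset.sum_congr rfl h3]
    simp
  have h4 : ∑ i ∈ Icc 1 h, (((Icc 1 h).filter fun j => j ≡ i [MOD q]).card : ℝ) ≤
      h * ((h : ℝ) / q + 1) := by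
    refine (Finset.sum_le_sum fun i _ => class_card q h i hq0).trans (le_of_eq ?_)
    rw [Finset.sum_const, nsmul_eq_mul, Nat.card_Icc, Nat.add_sub_cancel]
  have h5 := mul_le_mul_of_nonneg_left h4 hqr.le
  have h6 : (q : ℝ) * (h * ((h : ℝ) / q + 1)) = (h : ℝ) ^ 2 + q * h := by
    field_simp
  rw [h2] at h1
  linarith

end Pool.Agent.H52.APR
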