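import Pool.Agent.H27.AP.Targets

/-!
# Board apr (MP_98b15b_nt), row RAM: expansion in additive characters
-/

set_option autoImplicit false

open Finset Real

namespace Pool.Agent.H52.APR

open Pool.Agent.H27.AP

/-- the full exponential sum -/
theorem full_sum (m n : ℕ) (hm : 1 ≤ m) :
    ∑ j ∈ range m, ee j m n = if m ∣ n then (m : ℂ) else 0 := by
  have hm0 : (m : ℂ) ≠ 0 := by exact_mod_cast (by omega : m ≠ 0)
  have hpi : (2 * π * Complex.I : ℂ) ≠ 0 := Complex.two_pi_I_ne_zero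
  set z : ℂ := Complex.exp (2 * π * Complex.I * n / m) with hz
  have hpow : ∀ j : ℕ, ee j m n = z ^ j := by
    intro j
    unfold ee
    rw [hz, ← Complex.exp_nat_mul]
    congr 1
    ring
  have hzm : z ^ m = 1 := by
    rw [hz, ← Complex.exp_nat_mul, Complex.exp_eq_one_iff]
    refine ⟨n, ?_⟩
    push_cast
    field_simp
  have hz1 : z = 1 ↔ m ∣ n := by
    rw [hz, Complex.exp_eq_one_iff]
    constructor
    · rintro ⟨k, hk⟩
      have h1 : (n : ℂ) = k * m := by
        field_simp at hk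
        rw [mul_comm]
        exact_mod_cast hk
      have h2 : (n : ℤ) = k * m := by exact_mod_cast h1
      exact Int.natCast_dvd_natCast.1 ⟨k, by rw [h2]; ring⟩
    · rintro ⟨c, rfl⟩
      refine ⟨c, ?_⟩
      push_cast
      field_simp
  rw [Finset.sum_congr rfl fun j _ => hpow j]
  by_cases h : m ∣ n
  · rw [if_pos h, hz1.2 h]
    simp
  · rw [if_neg h]
    have h1 : z ≠ 1 := fun h2 => h (hz1.1 h2)
    rw [geom_sum_eq h1, hzm, sub_self, zero_div]

/-- the exponential sum grouped by the denominators -/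
theorem group_sum (m n : ℕ) (hm : 1 ≤ m) :
    ∑ q ∈ m.divisors, ∑ r ∈ Rd q, ee r q n = ∑ j ∈ range m, ee j m n := by
  rw [Finset.sum_sigma']
  refine Finset.sum_nbij' (fun x : (_ : ℕ) × ℕ => x.2 * (m / x.1))
    (fun j => (⟨m / Nat.gcd j m, j / Nat.gcd j m⟩ : (_ : ℕ) × ℕ)) ?_ ?_ ?_ ?_ ?_
  · rintro ⟨q, r⟩ hx
    simp only [Finset.mem_sigma, Nat.mem_divisors, Rd, Finset.mem_filter, Finset.mem_range] at hx
    obtain ⟨⟨⟨c, hc⟩, _⟩, hr, _⟩ := hx
    have hq : 0 < q := by omega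
    rw [Finset.mem_range]
    subst hc
    rw [Nat.mul_div_cancel_left c hq]
    have hc0 : 0 < c := Nat.pos_of_ne_zero fun h => by subst h; omega
    exact Nat.mul_lt_mul_of_pos_right hr hc0
  · intro j hj
    rw [Finset.mem_range] at hj
    have hg : 0 < Nat.gcd j m := Nat.gcd_pos_of_pos_right j (by omega)
    simp only [Finset.mem_sigma, Nat.mem_divisors, Rd, Finset.mem_filter, Finset.mem_range]
    refine ⟨⟨Nat.div_dvd_of_dvd (Nat.gcd_dvd_right j m), by omega⟩, ?_, ?_⟩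
    · exact Nat.div_lt_div_of_lt_of_dvd (Nat.gcd_dvd_right j m) hj
    · exact Nat.coprime_div_gcd_div_gcd hg
  · rintro ⟨q, r⟩ hx
    simp only [Finset.mem_sigma, Nat.mem_divisors, Rd, Finset.mem_filter, Finset.mem_range] at hx
    obtain ⟨⟨⟨c, hc⟩, _⟩, hr, hco⟩ := hx
    have hq : 0 < q := by omega
    subst hc
    have hc0 : 0 < c := Nat.pos_of_ne_zero fun h => by subst h; omega
    have h1 : q * c / q = c := Nat.mul_div_cancel_left c hq
    have h2 : Nat.gcd (r * c) (q * c) = c := by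
      rw [Nat.gcd_mul_right, Nat.Coprime.gcd_eq_one hco, one_mul]
    have h3 : q * c / c = q := Nat.mul_div_cancel q hc0
    have h4 : r * c / c = r := Nat.mul_div_cancel r hc0
    simp only [h1, h2, h3, h4]
  · intro j hj
    rw [Finset.mem_range] at hj
    have hg : 0 < Nat.gcd j m := Nat.gcd_pos_of_pos_right j (by omega)
    obtain ⟨c, hc⟩ := Nat.gcd_dvd_right j m
    obtain ⟨d, hd⟩ := Nat.gcd_dvd_left j m
    simp only
    set g := Nat.gcd j m with hgd
    have h1 : m / g = c := by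
      conv_lhs => rw [hc]
      exact Nat.mul_div_cancel_left c hg
    have h2 : j / g = d := by
      conv_lhs => rw [hd]
      exact Nat.mul_div_cancel_left d hg
    have hc0 : 0 < c := Nat.pos_of_ne_zero fun h => by rw [h] at hc; omega
    have h3 : m / c = g := by
      conv_lhs => rw [hc]
      exact Nat.mul_div_cancel g hc0
    rw [h1, h2, h3]
    rw [Nat.mul_comm]
    exact hd.symm
  · rintro ⟨q, r⟩ hx
    simp only [Finset.mem_sigma, Nat.mem_divisors, Rd, Finset.mem_filter, Finset.mem_range] at hx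
    obtain ⟨⟨⟨c, hc⟩, _⟩, hr, _⟩ := hx
    have hq : 0 < q := by omega
    subst hc
    have hc0 : 0 < c := Nat.pos_of_ne_zero fun h => by subst h; omega
    have h1 : q * c / q = c := Nat.mul_div_cancel_left c hq
    simp only [h1]
    unfold ee
    congr 1
    have hq' : (q : ℂ) ≠ 0 := by exact_mod_cast hq.ne'
    have hc' : (c : ℂ) ≠ 0 := by exact_mod_cast hc0.ne'
    push_cast
    field_simp

theorem pf_RAM : T_RAM := by
  intro w D n
  have h1 : ∀ q ∈ Icc 1 D, (cq w D q : ℂ) * ∑ r ∈ Rd q, ee r q n =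
      ∑ m ∈ (Icc 1 D).filter (fun m => q ∣ m), ((w m / m : ℝ) : ℂ) * ∑ r ∈ Rd q, ee r q n := by
    intro q _
    unfold cq
    push_cast
    rw [Finset.sum_mul]
  rw [Finset.sum_congr rfl h1]
  have h2 : ∑ q ∈ Icc 1 D, ∑ m ∈ (Icc 1 D).filter (fun m => q ∣ m),
      ((w m / m : ℝ) : ℂ) * ∑ r ∈ Rd q, ee r q n =
      ∑ m ∈ Icc 1 D, ∑ q ∈ m.divisors, ((w m / m : ℝ) : ℂ) * ∑ r ∈ Rd q, ee r q n := by
    refine Finset.sum_comm' fun q m => ?_
    simp only [Finset.mem_filter, Finset.mem_Icc, Nat.mem_divisors]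
    constructor
    · rintro ⟨⟨h3, h4⟩, ⟨h5, h6⟩, h7⟩
      exact ⟨⟨h7, by omega⟩, h5, h6⟩
    · rintro ⟨⟨h7, h8⟩, h5, h6⟩
      have h9 : 0 < q := Nat.pos_of_dvd_of_pos h7 (by omega)
      have h10 : q ≤ m := Nat.le_of_dvd (by omega) h7
      exact ⟨⟨h9, by omega⟩, ⟨h5, h6⟩, h7⟩
  rw [h2]
  unfold sw
  push_cast
  refine Finset.sum_congr rfl fun m hm => ?_
  have hm1 : 1 ≤ m := (Finset.mem_Icc.1 hm).1
  have hm0 : (m : ℂ) ≠ 0 := by exact_mod_cast (by omega : m ≠ 0)
  rw [← Finset.mul_sum, group_sum m n hm1, full_sum m n hm1]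
  split_ifs with h
  · push_cast
    field_simp
  · simp

end Pool.Agent.H52.APR
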