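import Pool.Agent.H27.AP.Targets

/-!
# Board apr (MP_98b15b_nt), row TRN: from the primes to the indices
-/

set_option autoImplicit false

open Finset Real

namespace Pool.Agent.H52.APR

open Pool.Agent.H27.AP

theorem p_lt {i j : ℕ} (hi : 1 ≤ i) (hij : i < j) : p i < p j :=
  Nat.nth_strictMono Nat.infinite_setOf_prime (by omega)

theorem p_le {i j : ℕ} (hi : 1 ≤ i) (hij : i ≤ j) : p i ≤ p j := by
  rcases Nat.lt_or_ge i j with h | h
  · exact (p_lt hi h).le
  · rw [le_antisymm hij h]

theorem p_prime (n : ℕ) : (p n).Prime := Nat.prime_nth_prime _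

theorem pi_p {b : ℕ} (hb : 1 ≤ b) : Nat.primeCounting (p b) = b := by
  unfold Nat.primeCounting Nat.primeCounting' p
  rw [Nat.count_nth_succ_of_infinite Nat.infinite_setOf_prime]
  omega

theorem pf_TRN : T_TRN := by
  intro a b ha hb h
  refine ⟨p_prime a, p_prime b, pi_p hb, ?_⟩
  rw [pi_p hb]
  have h1 : ((range (b + 1)).image fun i => p (a + i + 1)).card = b + 1 := by
    rw [Finset.card_image_of_injOn, Finset.card_range]
    intro i _ j _ hij
    by_contra hne
    rcases lt_or_gt_of_ne hne with h2 | h2
    · have := p_lt (i := a + i + 1) (j := a + j + 1) (by omega) (by omega)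
      have h3 : p (a + i + 1) = p (a + j + 1) := hij
      omega
    · have := p_lt (i := a + j + 1) (j := a + i + 1) (by omega) (by omega)
      have h3 : p (a + i + 1) = p (a + j + 1) := hij
      omega
  have h2 : ((range (b + 1)).image fun i => p (a + i + 1)) ⊆
      (Ioc (p a) (p a + (p b - 1))).filter Nat.Prime := by
    intro x hx
    obtain ⟨i, hi, rfl⟩ := Finset.mem_image.1 hx
    have hi' := Finset.mem_range.1 hi
    have h3 := p_lt (i := a) (j := a + i + 1) ha (by omega)
    have h4 := p_le (i := a + i + 1) (j := a + b + 1) (by omega) (by omega)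
    exact Finset.mem_filter.2 ⟨Finset.mem_Ioc.2 ⟨h3, by omega⟩, p_prime _⟩
  have h3 := Finset.card_le_card h2
  rw [h1] at h3
  exact h3

end Pool.Agent.H52.APR
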